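import Mathlib
import Pool.Agent.N178.HX.StmE

/-!
# GHC3/ZERO: the generalized Hodge conjecture contains the Hodge conjecture (helper507)
-/

set_option linter.unusedSectionVars false
set_option autoImplicit false

namespace Pool.Agent.N507.GHC3

open Finset Module Pool.Agent.Y90 Pool.Agent.R915
open Pool.Agent.H204R3.CM (IsHodge)
open Pool.Agent.W546.GHC (IsHodgeSubstructure LevelLE typeForms complexify)
open Pool.Agent.N178.HX (Cor GHC S_ZERO)

noncomputable section

section forms

variable {W T : Type} [AddCommGroup W] [Module ℚ W] [AddCommGroup T] [Module ℂ T] {per : W →+ T}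

/-- Multilinear forms over the real numbers are determined by their values on a spanning set. -/
theorem ext_span {κ : Type} [Finite κ] {M : Type} [AddCommGroup M] [Module ℝ M]
    (hs : Submodule.span ℝ (Set.range per) = ⊤) (φ ψ : MultilinearMap ℝ (fun _ : κ => T) M)
    (h : ∀ w : κ → W, φ (fun l => per (w l)) = ψ fun l => per (w l)) : φ = ψ := by
  classical
  have _ : Fintype κ := Fintype.ofFinite κ
  -- replace the variables one by one
  have key : ∀ (s : Finset κ) (u : κ → T) (w : κ → W),
      φ (fun l => if l ∈ s then u l else per (w l)) =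
        ψ (fun l => if l ∈ s then u l else per (w l)) := by
    intro s
    induction s using Finset.induction_on with
    | empty =>
      intro u w
      simpa using h w
    | insert a s ha ih =>
      intro u w
      have h1 : ∀ t : T, ∀ u : κ → T,
          φ (fun l => if l ∈ insert a s then Function.update u a t l else per (w l)) =
          ψ (fun l => if l ∈ insert a s then Function.update u a t l else per (w l)) := by
        intro t u
        have e1 : ∀ t : T, (fun l => if l ∈ insert a s then Function.update u a t l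
            else per (w l)) = Function.update (fun l => if l ∈ s then u l else per (w l)) a t := by
          intro t
          funext l
          by_cases hl : l = a
          · subst hl
            simp
          · rw [Function.update_of_ne hl, Function.update_of_ne hl]
            simp [hl]
        have ht : t ∈ Submodule.span ℝ (Set.range per) := hs ▸ Submodule.mem_top
        rw [e1]
        induction ht using Submodule.span_induction with
        | mem t ht =>
          obtain ⟨x, rfl⟩ := ht
          have h2 := ih u (Function.update w a x)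
          have e2 : (fun l => if l ∈ s then u l else per (Function.update w a x l)) =
              Function.update (fun l => if l ∈ s then u l else per (w l)) a (per x) := by
            funext l
            by_cases hl : l = a
            · subst hl
              simp [ha]
            · rw [Function.update_of_ne hl, Function.update_of_ne hl]
          rwa [e2] at h2
        | zero => rw [φ.map_update_zero, ψ.map_update_zero]
        | add x y _ _ hx hy => rw [φ.map_update_add, ψ.map_update_add, hx, hy]
        | smul r x _ hx => rw [φ.map_update_smul, ψ.map_update_smul, hx]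
      have h2 := h1 (u a) u
      rwa [Function.update_eq_self] at h2
  refine MultilinearMap.ext fun u => ?_
  have h1 := key univ u 0
  simpa using h1

/-- A Hodge class of odd degree vanishes. -/
theorem odd_zero {κ : Type} [Fintype κ] (ho : Odd (Fintype.card κ)) (f : W [⋀^κ]→ₗ[ℚ] ℚ)
    (hf : IsHodge per f) : f = 0 := by
  obtain ⟨ψ, h1, h2⟩ := hf
  ext v
  have h3 := h2 (-1) (by simp) fun l => per (v l)
  have h4 : (fun l => (-1 : ℂ) • per (v l)) = fun l => (-1 : ℝ) • per (v l) := by
    funext l
    rw [neg_one_smul, neg_one_smul]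
  rw [h4, ψ.map_smul_univ (fun _ => (-1 : ℝ)), Finset.prod_const, Finset.card_univ,
    Odd.neg_one_pow ho, neg_one_smul, h1] at h3
  have h5 : ((f v : ℚ) : ℝ) = 0 := by linarith
  rw [AlternatingMap.zero_apply]
  exact_mod_cast h5

/-- the scaling of a Hodge form of degree `2 j` -/
theorem hodge_scale {j : ℕ} (ψ : MultilinearMap ℝ (fun _ : Fin (0 + 2 * j) => T) ℝ)
    (h : ∀ z : ℂ, ‖z‖ = 1 → ∀ u : Fin (0 + 2 * j) → T, ψ (fun l => z • u l) = ψ u) (z : ℂ)
    (u : Fin (0 + 2 * j) → T) : ψ (fun l => z • u l) = ‖z‖ ^ (2 * j) * ψ u := by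
  by_cases hz : z = 0
  · subst hz
    rcases Nat.eq_zero_or_pos j with hj | hj
    · subst hj
      simp only [Nat.mul_zero, pow_zero, one_mul]
      congr 1
      funext l
      exact absurd l.2 (by simp)
    · have e1 : (fun l => (0 : ℂ) • u l) = fun l => (0 : ℝ) • u l := by
        funext l
        rw [zero_smul, zero_smul]
      rw [e1, ψ.map_smul_univ (fun _ => (0 : ℝ)), Finset.prod_const, Finset.card_univ,
        Fintype.card_fin, norm_zero, zero_pow (by omega), zero_pow (by omega), zero_smul, zero_mul]
  · have hn : ‖z‖ ≠ 0 := norm_ne_zero_iff.2 hz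
    have e1 : (fun l => z • u l) = fun l => ‖z‖ • ((z / ‖z‖) • u l) := by
      funext l
      rw [← Complex.coe_smul ‖z‖, smul_smul, mul_div_cancel₀ _ (by exact_mod_cast hn)]
    have e2 : ‖z‖ ^ (0 + 2 * j) = ‖z‖ ^ (2 * j) := by rw [Nat.zero_add]
    rw [e1, ψ.map_smul_univ (fun _ => ‖z‖), Finset.prod_const, Finset.card_univ,
      Fintype.card_fin, h (z / ‖z‖) (by rw [norm_div, Complex.norm_real, norm_norm, div_self hn]),
      smul_eq_mul, e2]

/-- The complexification of the span of a Hodge class is of the type `(j, j)`. -/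
theorem complexify_le {j : ℕ} (hs : Submodule.span ℝ (Set.range per) = ⊤)
    (f : W [⋀^Fin (0 + 2 * j)]→ₗ[ℚ] ℚ) (hf : IsHodge per f) :
    complexify per (Submodule.span ℚ {f}) ≤ typeForms T (0 + 2 * j) j j := by
  obtain ⟨ψ, h1, h2⟩ := hf
  refine Submodule.span_le.2 ?_
  rintro θ ⟨g, hg, hθ⟩
  obtain ⟨c, rfl⟩ := Submodule.mem_span_singleton.1 hg
  have e1 : θ.toMultilinearMap = (((c : ℝ) : ℂ) • (Complex.ofRealAm.toLinearMap.compMultilinearMap
      ψ : MultilinearMap ℝ (fun _ : Fin (0 + 2 * j) => T) ℂ)) := by
    refine ext_span hs _ _ fun w => ?_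
    change θ (fun l => per (w l)) = ((c : ℝ) : ℂ) * ((ψ (fun l => per (w l)) : ℝ) : ℂ)
    have e3 : (c • f) w = c * f w := rfl
    rw [hθ, h1, e3]
    push_cast
    rfl
  have e2 : ∀ u, θ u = ((c : ℝ) : ℂ) * ((ψ u : ℝ) : ℂ) := fun u => congrArg (fun F => F u) e1
  change ∀ (z : ℂ) (u : Fin (0 + 2 * j) → T), θ (fun l => z • u l) =
    z ^ j * (starRingEnd ℂ z) ^ j * θ u
  intro z u
  rw [e2, e2, hodge_scale ψ h2, ← mul_pow, Complex.mul_conj, Complex.normSq_eq_norm_sq]
  push_cast
  ring

/-- forms of two different types vanish -/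
theorem type_zero {i p q j : ℕ} (hpq : p + q = 2 * j) (hne : p ≠ q) (θ : T [⋀^Fin i]→ₗ[ℝ] ℂ)
    (h1 : θ ∈ typeForms T i p q) (h2 : θ ∈ typeForms T i j j) : θ = 0 := by
  ext u
  -- a complex number of absolute value one with `z ^ p * conj z ^ q ≠ 1`
  obtain ⟨z, hz, hz2⟩ : ∃ z : ℂ, z * (starRingEnd ℂ z) = 1 ∧
      z ^ p * (starRingEnd ℂ z) ^ q = -1 := by
    have hexp : ∀ t : ℝ, (starRingEnd ℂ) (Complex.exp (t * Complex.I)) =
        Complex.exp (-(t * Complex.I)) := by
      intro t
      rw [← Complex.exp_conj, map_mul, Complex.conj_I, Complex.conj_ofReal, mul_neg]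
    refine ⟨Complex.exp (((Real.pi / ((p : ℝ) - q) : ℝ) : ℂ) * Complex.I), ?_, ?_⟩
    · rw [hexp, ← Complex.exp_add, add_neg_cancel, Complex.exp_zero]
    · rw [hexp, ← Complex.exp_nat_mul, ← Complex.exp_nat_mul, ← Complex.exp_add]
      have h3 : ((p : ℂ) - q) ≠ 0 := by
        rw [sub_ne_zero]
        exact_mod_cast hne
      have e1 : (p : ℂ) * (((Real.pi / ((p : ℝ) - q) : ℝ) : ℂ) * Complex.I) +
          q * (-(((Real.pi / ((p : ℝ) - q) : ℝ) : ℂ) * Complex.I)) = Real.pi * Complex.I := by
        push_cast
        field_simp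
        ring
      rw [e1, Complex.exp_pi_mul_I]
  have h3 := h1 z u
  have h4 := h2 z u
  rw [hz2] at h3
  rw [← mul_pow, hz, one_pow, one_mul] at h4
  rw [h4] at h3
  have h5 : θ u = 0 := by linear_combination (1 / 2 : ℂ) * h3
  rw [h5]
  rfl

end forms

/-- A class in the span for `n = 0` belongs to the system. -/
theorem A_of_Cor (𝒜 : Sys) (X : AV) (i : ℕ) (f : X.H [⋀^Fin i]→ₗ[ℚ] ℚ) (hf : f ∈ Cor 𝒜 X 0 i) :
    𝒜.A X (Fin i) f := by
  induction hf using Submodule.span_induction with
  | mem f hf =>
    obtain ⟨Y, P, a, b, τ, y, -, hb, -, hτ, hv⟩ := hf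
    have h1 := 𝒜.reindex (Equiv.emptySum (Fin 0) (Fin i)) _ (𝒜.pull b hb τ hτ)
    have e1 : (τ.compLinearMap b).domDomCongr (Equiv.emptySum (Fin 0) (Fin i)) = f := by
      ext v
      rw [hv, AlternatingMap.domDomCongr_apply, AlternatingMap.compLinearMap_apply]
      congr 1
      funext k
      rcases k with k | l
      · exact k.elim0
      · rfl
    rwa [e1] at h1
  | zero => exact 𝒜.zero X _
  | add g g' _ _ hg hg' => exact 𝒜.add g g' hg hg'
  | smul c g _ hg => exact 𝒜.smul c g hg

theorem t_ZERO : S_ZERO := by
  intro 𝒜 X hG κ _ f hf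
  classical
  let _ : Fintype κ := Fintype.ofFinite κ
  rcases Nat.even_or_odd (Fintype.card κ) with he | ho
  · obtain ⟨j, hj⟩ := he
    have e : κ ≃ Fin (0 + 2 * j) := Fintype.equivOfCardEq (by
      rw [Fintype.card_fin, hj]
      ring)
    have hf' : IsHodge X.per (f.domDomCongr e) := by
      obtain ⟨ψ, h1, h2⟩ := hf
      refine ⟨ψ.domDomCongr e, fun v => ?_, fun z hz u => ?_⟩
      · rw [MultilinearMap.domDomCongr_apply, AlternatingMap.domDomCongr_apply]
        exact h1 fun k => v (e k)
      · rw [MultilinearMap.domDomCongr_apply, MultilinearMap.domDomCongr_apply]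
        exact h2 z hz fun k => u (e k)
    have hle := complexify_le X.span _ hf'
    have hV : IsHodgeSubstructure X.per (Submodule.span ℚ {f.domDomCongr e}) := by
      refine le_antisymm ?_ ?_
      · refine le_trans (le_inf le_rfl hle) ?_
        exact le_iSup_of_le j (le_iSup_of_le j (le_iSup_of_le (by omega) le_rfl))
      · exact iSup_le fun p => iSup_le fun q => iSup_le fun _ => inf_le_left
    have hL : LevelLE X.per (Submodule.span ℚ {f.domDomCongr e}) ((0 : ℕ) : ℤ) := by
      intro p q hpq hne
      by_contra hcon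
      refine hne ?_
      rw [Submodule.eq_bot_iff]
      intro θ hθ
      have hne' : p ≠ q := by
        rintro rfl
        apply hcon
        simp
      exact type_zero (j := j) (by omega) hne' θ hθ.2 (hle hθ.1)
    have h1 := hG 0 j _ hV hL (Submodule.mem_span_singleton_self _)
    have h2 := A_of_Cor 𝒜 X _ _ h1
    have h3 := 𝒜.reindex e.symm _ h2
    have e1 : (f.domDomCongr e).domDomCongr e.symm = f := by
      ext v
      rw [AlternatingMap.domDomCongr_apply, AlternatingMap.domDomCongr_apply]
      congr 1
      funext k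
      simp
    rwa [e1] at h3
  · rw [odd_zero ho f hf]
    exact 𝒜.zero X κ

end

end Pool.Agent.N507.GHC3
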