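import Mathlib
import Pool.Agent.N178.HX.StmE
import Pool.Agent.N222.GHC.Asm

/-!
# GHC3/ASMG: the assembly (helper507; adaptation of `Pool.Agent.N222.GHC.Asm` of helper222)
-/

set_option linter.unusedSectionVars false

namespace Pool.Agent.N507.GHC3

open Finset Matrix Module Pool.Agent.W437.HC Pool.Agent.W437.HD Pool.Agent.Y90 Pool.Agent.R915
open Pool.Agent.H204R3.CM (IsHodge)
open Pool.Agent.W546.GHC (IsHodgeSubstructure LevelLE)
open Pool.Agent.N178.HW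
open Pool.Agent.TH131.GHC (Frame HL)
open Pool.Agent.TH504.CB (isHodge_comp)
open Pool.Agent.W548.Odd (hermZ)
open Pool.Agent.W437.HP (cK cK_mul cK_one)
open Pool.Agent.N222.GHC (rS rS_inj rS_hom qM qM_some qM_none qM_hom qM_inl qM_inr exists_frame
  AL ALL ALL_apply AL_apply AL_self evalF_elim)
open Pool.Agent.N178.HX (Cor GHC HasMapsG S_RATG S_ASMG)

noncomputable section

/-! ### powers -/

theorem Q_pow {Q : AV → Prop}
    (hsub : ∀ (X Y : AV) (f : X.H →ₗ[ℚ] Y.H), IsHom X Y f → Function.Injective f → Q Y → Q X)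
    (hprod : ∀ X Y : AV, Q X → Q Y → Q (prodAV X Y)) {G : ℕ} {Z : Matrix (Fin G) (Fin G) ℂ}
    (h : PM Z) (hg : Q (AVZ h)) (n : ℕ) : Q (AVQ (fun _ : Fin n => h)) := by
  induction n with
  | zero =>
    refine hsub (AVQ (fun _ : Fin 0 => h)) (AVZ h) 0 ⟨0, fun v => ?_⟩ ?_ hg
    · rw [LinearMap.zero_apply, LinearMap.zero_apply, map_zero]
    · intro v w _
      funext z
      exact z.1.elim0
  | succ n ih =>
    exact hsub (AVQ (fun _ : Fin (n + 1) => h)) (prodAV (AVQ (fun _ : Fin n => h)) (AVZ h))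
      (rS G n) (rS_hom h n) (rS_inj G n) (hprod _ _ ih hg)

/-! ### products -/

section prod

variable (𝒜 : Sys) {G : ℕ} {Z : Matrix (Fin G) (Fin G) ℂ} (h : PM Z) {X : AV}
  (ι : X.H →ₗ[ℚ] (Fin G ⊕ Fin G → ℚ))

/-- The correspondence given by a Hodge class on the power. -/
theorem mem_Cor {n i : ℕ} {Ψ : X.T →ₗ[ℂ] (Fin G → ℂ)} (hΨ : ∀ v, Ψ (X.per v) = perOne Z (ι v))
    (hall : 𝒜.AllHodge (prodAV (AVQ (fun _ : Fin n => h)) X))
    {T : (AVQ (fun _ : Option (Fin n) => h)).H [⋀^Fin n ⊕ Fin i]→ₗ[ℚ] ℚ}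
    (hT : IsHodge (AVQ (fun _ : Option (Fin n) => h)).per T) (e : Fin n → Fin G ⊕ Fin G → ℚ)
    {f : X.H [⋀^Fin i]→ₗ[ℚ] ℚ} (hf : ∀ x : Fin i → X.H, f x =
      T (Sum.elim (fun k => inF (fun _ : Option (Fin n) => G) (some k) (e k))
        fun l => inF (fun _ : Option (Fin n) => G) none (ι (x l)))) : f ∈ Cor 𝒜 X n i := by
  refine Submodule.subset_span ⟨AVQ (fun _ : Fin n => h), prodAV (AVQ (fun _ : Fin n => h)) X,
    LinearMap.inl ℚ _ _, LinearMap.inr ℚ _ _, T.compLinearMap (qM ι n),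
    fun k => inF (fun _ : Fin n => G) k (e k), ?_, ?_, ?_, ?_, ?_⟩
  · refine ⟨LinearMap.inl ℂ _ _, fun v => ?_⟩
    change ((AVQ (fun _ : Fin n => h)).per v, (0 : X.T)) =
      ((AVQ (fun _ : Fin n => h)).per v, X.per 0)
    rw [map_zero]
  · refine ⟨LinearMap.inr ℂ _ _, fun v => ?_⟩
    change ((0 : (AVQ (fun _ : Fin n => h)).T), X.per v) =
      ((AVQ (fun _ : Fin n => h)).per 0, X.per v)
    rw [map_zero]
  · have e1 : (fun w : (AVQ (fun _ : Fin n => h)).H × X.H =>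
        LinearMap.inl ℚ (AVQ (fun _ : Fin n => h)).H X.H w.1 +
          LinearMap.inr ℚ (AVQ (fun _ : Fin n => h)).H X.H w.2) = id := by
      funext w
      rw [LinearMap.inl_apply, LinearMap.inr_apply, Prod.mk_add_mk, add_zero, zero_add]
      rfl
    change Function.Bijective (fun w : (AVQ (fun _ : Fin n => h)).H × X.H =>
        LinearMap.inl ℚ (AVQ (fun _ : Fin n => h)).H X.H w.1 +
          LinearMap.inr ℚ (AVQ (fun _ : Fin n => h)).H X.H w.2)
    rw [e1]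
    exact Function.bijective_id
  · obtain ⟨Φ, hΦ⟩ := qM_hom h ι n hΨ
    exact hall (Fin n ⊕ Fin i) _ (isHodge_comp (qM ι n) Φ hΦ hT)
  · intro x
    refine (hf x).trans ?_
    refine congrArg T (a₂ := fun k => qM ι n (Sum.elim
      (fun k => ((inF (fun _ : Fin n => G) k (e k), 0) : (BQ (fun _ : Fin n => G) → ℚ) × X.H))
      (fun l => ((0, x l) : (BQ (fun _ : Fin n => G) → ℚ) × X.H)) k)) ?_
    funext k
    rcases k with k | l
    · exact (qM_inl ι n k (e k)).symm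
    · exact (qM_inr ι n (x l)).symm

/-- The alternations of the contractions are correspondences. -/
theorem AL_Cor (hmult : S_MULT) {n i : ℕ} {Ψ : X.T →ₗ[ℂ] (Fin G → ℂ)}
    (hΨ : ∀ v, Ψ (X.per v) = perOne Z (ι v))
    (hall : 𝒜.AllHodge (prodAV (AVQ (fun _ : Fin n => h)) X))
    {g : (Fin i → Fin G ⊕ Fin G) → ℚ} (hg : g ∈ RS (DZ Z) n i) : AL ι g ∈ Cor 𝒜 X n i := by
  have key : RS (DZ Z) n i ≤ (Cor 𝒜 X n i).comap (ALL ι) := by
    refine Submodule.span_le.2 ?_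
    rintro _ ⟨τ, η, hτ, rfl⟩
    change AL ι _ ∈ Cor 𝒜 X n i
    obtain ⟨T, hT, hTv⟩ := hmult h n i τ hτ
    -- the form for one value of `J`
    let F : (Fin n → Fin G ⊕ Fin G) → X.H [⋀^Fin i]→ₗ[ℚ] ℚ := fun J =>
      AL ι (fun I => τ (Sum.elim J I))
    have hF : ∀ J, F J ∈ Cor 𝒜 X n i := by
      intro J
      refine mem_Cor 𝒜 h ι hΨ hall hT (fun k => Pi.single (J k) 1) fun x => ?_
      rw [hTv]
      change AL ι (fun I => τ (Sum.elim J I)) x = _
      rw [AL_apply]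
      refine Finset.sum_congr rfl fun σ _ => ?_
      rw [evalF_elim]
      rfl
    have e1 : AL ι (fun I => ∑ J, η J * τ (Sum.elim J I)) = ∑ J, η J • F J := by
      rw [← ALL_apply]
      have e2 : (fun I => ∑ J, η J * τ (Sum.elim J I)) =
          ∑ J : Fin n → Fin G ⊕ Fin G, η J • fun I : Fin i → Fin G ⊕ Fin G => τ (Sum.elim J I) := by
        funext I
        rw [Finset.sum_apply]
        rfl
      rw [e2, map_sum]
      refine Finset.sum_congr rfl fun J _ => ?_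
      rw [map_smul]
      rfl
    rw [e1]
    exact Submodule.sum_mem _ fun J _ => Submodule.smul_mem _ _ (hF J)
  exact key hg

end prod

/-- The zero variety. -/
theorem le_Cor_of_zero (𝒜 : Sys) (X : AV) (hX : ∀ v : X.H, v = 0) (n j : ℕ)
    (V : Submodule ℚ (X.H [⋀^Fin (n + 2 * j)]→ₗ[ℚ] ℚ)) : V ≤ Cor 𝒜 X n (n + 2 * j) := by
  intro f _
  by_cases h0 : n + 2 * j = 0
  · obtain ⟨rfl, rfl⟩ : n = 0 ∧ j = 0 := by omega
    have hE : IsEmpty (Fin 0 ⊕ Fin (0 + 2 * 0)) := inferInstanceAs (IsEmpty (Fin 0 ⊕ Fin 0))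
    refine Submodule.subset_span ⟨X, X, LinearMap.id, LinearMap.id,
      AlternatingMap.constOfIsEmpty ℚ X.H (Fin 0 ⊕ Fin (0 + 2 * 0)) (f 0), fun k => 0,
      ⟨LinearMap.id, fun _ => rfl⟩, ⟨LinearMap.id, fun _ => rfl⟩, ?_, ?_, ?_⟩
    · refine ⟨fun v w _ => Prod.ext ?_ ?_, fun v => ⟨0, ?_⟩⟩
      · rw [hX v.1, hX w.1]
      · rw [hX v.2, hX w.2]
      · exact (hX _).trans (hX _).symm
    · exact 𝒜.unit _
    · intro x
      have : x = 0 := by
        funext l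
        exact hX _
      rw [this]
      rfl
  · have h1 : f = 0 := by
      ext x
      exact f.map_coord_zero (⟨0, by omega⟩ : Fin (n + 2 * j)) (hX _)
    rw [h1]
    exact Submodule.zero_mem _

/-- **The assembly.** -/
theorem t_ASMG : S_ASMG := by
  intro hmult hrat 𝒜 Q hsub hprod hallQ C hCQ hmaps X hX n j V hV hL
  obtain ⟨G, Z, h, A, hC⟩ := exists_ppav (AV.isAV (prodAV X C))
  obtain ⟨Ψ₁, h₁⟩ := h.cht.hom hC (R := 1) (by rw [cK_one, Matrix.one_mul, Matrix.mul_one])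
  obtain ⟨Ψ₂, h₂⟩ := hC.hom h.cht (R := 1) (by rw [cK_one, Matrix.one_mul, Matrix.mul_one])
  have e₁ : ∀ w, Ψ₁ (perOne Z w) = (prodAV X C).per (A.symm w) := fun w => by
    rw [h₁, one_mulVec]
    rfl
  have e₂ : ∀ v, Ψ₂ ((prodAV X C).per v) = perOne Z (A v) := fun v => by
    have h3 := h₂ (A v)
    have h4 : ((prodAV X C).per.comp A.symm.toLinearMap.toAddMonoidHom) (A v) =
        (prodAV X C).per v := by
      change (prodAV X C).per (A.symm (A v)) = (prodAV X C).per v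
      rw [LinearEquiv.symm_apply_apply]
    rwa [h4, one_mulVec] at h3
  -- the maps
  let ι : X.H →ₗ[ℚ] (Fin G ⊕ Fin G → ℚ) :=
    A.toLinearMap.comp (LinearMap.inl ℚ X.H C.H)
  let π : (Fin G ⊕ Fin G → ℚ) →ₗ[ℚ] X.H :=
    (LinearMap.fst ℚ X.H C.H).comp A.symm.toLinearMap
  have hπι : ∀ v, π (ι v) = v := fun v =>
    congrArg Prod.fst (A.symm_apply_apply ((v, 0) : X.H × C.H))
  by_cases hne : Nonempty (Fin G ⊕ Fin G)
  swap
  · rw [not_nonempty_iff] at hne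
    refine le_Cor_of_zero 𝒜 X (fun v => ?_) n j V
    have h1 : ι v = 0 := by
      funext i
      exact hne.elim i
    rw [← hπι v, h1, map_zero]
  let Ψ : X.T →ₗ[ℂ] (Fin G → ℂ) := Ψ₂.comp (LinearMap.inl ℂ X.T C.T)
  have hΨ : ∀ v, Ψ (X.per v) = perOne Z (ι v) := fun v => by
    have h3 := e₂ ((v, 0) : X.H × C.H)
    have h4 : (prodAV X C).per ((v, 0) : X.H × C.H) =
        ((X.per v, 0) : X.T × C.T) := by
      change ((X.per v, C.per 0) : X.T × C.T) = _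
      rw [map_zero]
    rw [h4] at h3
    exact h3
  let Φ : (Fin G → ℂ) →ₗ[ℂ] X.T := (LinearMap.fst ℂ X.T C.T).comp Ψ₁
  have hΦ : ∀ w, Φ (perOne Z w) = X.per (π w) := fun w => congrArg Prod.fst (e₁ w)
  let fE : C.H →ₗ[ℚ] (AVZ h).H := A.toLinearMap.comp (LinearMap.inr ℚ X.H C.H)
  have hfE : IsHom C (AVZ h) fE := by
    refine ⟨Ψ₂.comp (LinearMap.inr ℂ X.T C.T), fun v => ?_⟩
    have h3 := e₂ ((0, v) : X.H × C.H)
    have h4 : (prodAV X C).per ((0, v) : X.H × C.H) =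
        ((0, C.per v) : X.T × C.T) := by
      change ((X.per 0, C.per v) : X.T × C.T) = _
      rw [map_zero]
    rw [h4] at h3
    exact h3
  have hfE2 : Function.Injective fE := by
    intro v w hvw
    have h3 : ((0, v) : X.H × C.H) = (0, w) := A.injective hvw
    exact congrArg Prod.snd h3
  -- Q
  have hgW : Q (prodAV X C) := hprod _ _ hX hCQ
  have hgZ : Q (AVZ h) := hsub (AVZ h) (prodAV X C) A.symm.toLinearMap
    ⟨Ψ₁, e₁⟩ A.symm.injective hgW
  have hgP : Q (prodAV (AVQ (fun _ : Fin n => h)) X) :=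
    hprod _ _ (Q_pow hsub hprod h hgZ n) hX
  have hall := hallQ _ hgP
  -- the frame
  obtain ⟨Fr, hFa, hFs⟩ := exists_frame h ι π hπι hΨ hΦ
  have hmap := hmaps h fE hfE hfE2 hgZ n j
  obtain ⟨S, Si, H⟩ := hermZ h.isPer (Set.mem_singleton Z)
  rw [← img_eq] at H
  let σ₀ : Fin (n + 2 * j) → Unit := fun _ => ()
  have hHL : HL (DZ Z) (n : ℤ) (V.map (Fr.cf σ₀)) := Fr.HL_map (D := DZ Z) rfl σ₀ hV hL
  have hRS := hrat H n (n + 2 * j) hmap _ hHL
  intro f hf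
  have h5 := hRS (Submodule.mem_map_of_mem hf)
  have h6 := AL_Cor 𝒜 h ι hmult hΨ hall h5
  have h7 : ∀ x : Fin (n + 2 * j) → X.H, f x = evalF (Fr.cf σ₀ f) (fun k => ι (x k)) := by
    intro x
    rw [Fr.expand f x, Fintype.sum_eq_single σ₀ (fun σ hσ => absurd (Subsingleton.elim _ _) hσ)]
    simp only [hFa]
    rfl
  rw [AL_self ι _ f h7] at h6
  have h8 : ((Nat.factorial (n + 2 * j) : ℕ) : ℚ) ≠ 0 := Nat.cast_ne_zero.2 (Nat.factorial_ne_zero _)
  have h9 := Submodule.smul_mem _ (((Nat.factorial (n + 2 * j) : ℕ) : ℚ)⁻¹) h6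
  rwa [smul_smul, inv_mul_cancel₀ h8, one_smul] at h9

end

end Pool.Agent.N507.GHC3
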